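import Pool.Agent.H.MP_ca6624_gt.Final

/-!
# MP_ca6624_gt, Q1: the answer is negative

The invariant is the coefficient of `X ^ 5` in the Conway polynomial of a link with four
components, where `z = q - q⁻¹` and `q = 1 + X`. It has degree at most five. It vanishes on
algebraically split links, because the first order terms of the Burau matrix with respect to the
components are then zero. It is not a combination `∑ lk i j * w i j`: along the links
`A₁₄ ^ n (A₃₄⁻ᵟ A₂₄ ^ n A₃₄ᵟ) [A₁₂, A₂₃]ᵋ`, with `δ` and `ε` in `{0, 1}`, the alternating sum over
`δ` and `ε` of an invariant of finite type is `n ^ 2` times a polynomial in `n`, by the exchange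
move for closed braids; all these links have `lk₁₄ = lk₂₄ = n` and the other linking numbers zero,
so the alternating sum of such a combination is divisible by `n ^ 3`; but that of the coefficient
is `64 n ^ 2`.
-/

set_option autoImplicit false

open Pool.Agent.H.MP_ca6624_gt

namespace Pool.Agent.Results.MP_ca6624_gt.NoLinkingIdeal

/-- **There is a finite type invariant `v` of links with four numbered components that vanishes on
every algebraically split link, but that cannot be written as `∑_{i < j} lk i j * w i j` with finite
type invariants `w i j`: it does not lie in the ideal generated by the linking numbers.** -/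
theorem result : ∃ v : Link 4 → ℂ, IsFiniteType v ∧ (∀ L, IsAlgSplit L → v L = 0) ∧
    ¬ ∃ w : Fin 4 → Fin 4 → Link 4 → ℂ, (∀ i j, i < j → IsFiniteType (w i j)) ∧
      ∀ L, v L = ∑ i, ∑ j ∈ Finset.univ.filter (i < ·), lk i j L * w i j L :=
  ⟨cw 4 5, ⟨5, cw_degree 4 5⟩, vanishes, not_mem_ideal⟩

end Pool.Agent.Results.MP_ca6624_gt.NoLinkingIdeal
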